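import Pool.Agent.R146.Peb.Slide

/-!
# MP_3627f5_co, Q1: the worst-case solution length of pebble motion on trees is `Θ(N² log N)`

For every `N ≥ 25` there is an instance on a tree with `N` vertices whose shortest solution has at
least `N² log N / 144` moves.

The tree is a path `-M, …, L` with one more leaf at the vertex `0` (`L = ⌊(N-2)/2⌋`,
`M = N - 2 - L`); `n = L` pebbles stand on `1, …, L` and their order has to be reversed.

Idea: two pebbles can change their order only if one of them is on the extra leaf and the other one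
is at the vertex `0`. So, for every `h`, every pair of pebbles is simultaneously inside the zone of
the `2h` vertices at distance `< h` from the leg of the leaf; a pebble which enters this zone creates
at most `2h - 1` new pairs, so there are at least `c n² / h` entries for each `h`, and one move is
an entry for at most one `h`. Sum over `h ≤ n/2`.
-/

set_option autoImplicit false

namespace Pool.Agent.Results.MP_3627f5_co.NSqLogLower

open Pool.Agent.R146.Peb

theorem numeric {N n : ℕ} (hN : 25 ≤ N) (hn : N ≤ 2 * n + 3) :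
    1 / 144 * (N : ℝ) ^ 2 * Real.log N ≤ (n : ℝ) ^ 2 / 8 * Real.log (n / 2) := by
  have hN' : (25 : ℝ) ≤ N := by exact_mod_cast hN
  have hn' : (N : ℝ) ≤ 2 * n + 3 := by exact_mod_cast hn
  have hs : √(N : ℝ) ^ 2 = N := Real.sq_sqrt (by linarith)
  have hs5 : 5 ≤ √(N : ℝ) := Real.le_sqrt_of_sq_le (by linarith)
  have h1 : √(N : ℝ) ≤ n / 2 := by nlinarith
  have h2 : Real.log N / 2 ≤ Real.log (n / 2) := by
    rw [← Real.log_sqrt (by linarith)]
    exact Real.log_le_log (by linarith) h1
  have h3 : (N : ℝ) / 3 ≤ n := by linarith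
  have h4 : (N : ℝ) ^ 2 / 9 ≤ (n : ℝ) ^ 2 := by nlinarith
  have h5 : 0 ≤ Real.log N := Real.log_nonneg (by linarith)
  calc 1 / 144 * (N : ℝ) ^ 2 * Real.log N = ((N : ℝ) ^ 2 / 9) / 8 * (Real.log N / 2) := by ring
    _ ≤ (n : ℝ) ^ 2 / 8 * Real.log (n / 2) :=
      mul_le_mul (by linarith) h2 (by linarith) (by positivity)

/-- **There are instances on trees with `N` vertices whose shortest solution has at least
`c N² log N` moves** (for every `N ≥ 25`). -/
theorem result : ∃ c : ℝ, 0 < c ∧ ∀ N : ℕ, 25 ≤ N →
    ∃ (V : Type) (_ : Fintype V) (G : SimpleGraph V) (n : ℕ) (f g : V → Fin (n + 1)),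
      Fintype.card V = N ∧ IsInstance G f g ∧ (∃ m, Solves G m f g) ∧
        c * (N : ℝ) ^ 2 * Real.log N ≤ (ell G f g : ℝ) := by
  refine ⟨1 / 144, by norm_num, fun N hN => ?_⟩
  obtain ⟨L, hL⟩ : ∃ L, L = (N - 2) / 2 := ⟨_, rfl⟩
  obtain ⟨M, hM⟩ : ∃ M, M = N - 2 - L := ⟨_, rfl⟩
  have hLM : L ≤ M := by omega
  have hcard : Fintype.card (VV L M) = N := by rw [card_VV]; omega
  set x : Fin L → ℤ := plc 0 0 (1 : Equiv.Perm (Fin L)) with hx
  set z : Fin L → ℤ := plc 0 0 ((Fin.revPerm : Equiv.Perm (Fin L)) * 1) with hz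
  have hvx : Valid L M x := plc_valid le_rfl hLM 0 0 le_rfl le_rfl (by omega) _
  have hvz : Valid L M z := plc_valid le_rfl hLM 0 0 le_rfl le_rfl (by omega) _
  have hsol : ∃ m, Solves (TG L M) m (F L M x) (F L M z) :=
    solves_of_R (all_reach le_rfl hLM _ _)
  refine ⟨VV L M, inferInstance, TG L M, L, F L M x, F L M z, hcard, ?_, hsol, ?_⟩
  · refine ⟨isTree L M, ?_, F_config hvx, F_config hvz, ?_⟩
    · rw [hcard]; omega
    · intro u v w hw
      have := isthmus_le hLM (by omega) w hw
      rw [hcard]
      omega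
  · have hmem : ell (TG L M) (F L M x) (F L M z) ∈
        {m | Solves (TG L M) m (F L M x) (F L M z)} := Nat.sInf_mem hsol
    have hlow := lower (L := L) (M := M) (n := L) (by omega) (F L M x) (F L M z) (F_config hvx)
      (F_config hvz) le_rfl (by
        intro i v hv
        refine F_eq hvx.1 ?_
        rw [hv, hx]
        simp only [plc, EE, Equiv.Perm.one_apply]
        rw [if_neg (by omega)]) (by
        intro i v hv
        refine F_eq hvz.1 ?_
        rw [hv, hz]
        simp only [plc, EE, mul_one, Fin.revPerm_apply, Fin.val_rev]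
        have := i.2
        rw [if_neg (by omega)]
        omega) hmem
    exact (numeric hN (by omega)).trans hlow

end Pool.Agent.Results.MP_3627f5_co.NSqLogLower
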